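import Mathlib
import Pool.Agent.Lib.Helper71.Grig2
import Pool.Agent.Lib.Helper71.Kolchin

/-!
# Infinite-dimensional irreducible representations of the Grigorchuk group in characteristic 2

Let `y = a + c + ab + ba + ada` in the group algebra over a field `k` of characteristic `2`.
It has augmentation `1`, but it kills a nonzero function on (the `G`-set containing) the orbit of
the boundary point `1^∞` (`key_identity`), so the left ideal it generates is proper.  A simple
quotient of `kG / kG y` is a simple module on which `y` is not invertible.  It is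
infinite-dimensional, since `G` is a 2-group (`exists_pow_eq_one`) and a finite-dimensional
representation of a 2-group over a field of characteristic 2 has a nonzero fixed vector
(`exists_fixed`).
-/

set_option autoImplicit false

namespace Pool.Agent.Results.MP_64b2bf_al.EveryFieldCharTwo

open Pool.Agent.Lib.Helper71

universe u

section

variable (k : Type u) [Field k]

/-- The action of the Grigorchuk group on `k`-valued functions on `Om`. -/
def rho : Representation k grigorchukGroup (Om → k) where
  toFun g :=
    { toFun := fun φ η => φ (act (g : Equiv.Perm (List Bool))⁻¹ η)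
      map_add' := fun _ _ => rfl
      map_smul' := fun _ _ => rfl }
  map_one' := by
    ext φ η
    simp [act_one]
  map_mul' g h := by
    ext φ η
    simp only [Subgroup.coe_mul, mul_inv_rev, LinearMap.coe_mk, AddHom.coe_mk,
      Module.End.mul_apply, act_mul]

theorem rho_apply (g : grigorchukGroup) (φ : Om → k) (η : Om) :
    rho k g φ η = φ (act (g : Equiv.Perm (List Bool))⁻¹ η) := rfl

/-- The generators as elements of the group. -/
def ga : grigorchukGroup := ⟨a, Subgroup.subset_closure (by simp)⟩
/-- The generators as elements of the group. -/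
def gb : grigorchukGroup := ⟨b, Subgroup.subset_closure (by simp)⟩
/-- The generators as elements of the group. -/
def gc : grigorchukGroup := ⟨c, Subgroup.subset_closure (by simp)⟩
/-- The generators as elements of the group. -/
def gd : grigorchukGroup := ⟨d, Subgroup.subset_closure (by simp)⟩

/-- The element `y = a + c + ab + ba + ada`. -/
noncomputable def y : MonoidAlgebra k grigorchukGroup :=
  MonoidAlgebra.of k _ ga + MonoidAlgebra.of k _ gc + MonoidAlgebra.of k _ (ga * gb) +
    MonoidAlgebra.of k _ (gb * ga) + MonoidAlgebra.of k _ (ga * gd * ga)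

variable [CharP k 2]

/-- The function killed by `y`. -/
noncomputable def fk : Om → k := fun η => ZMod.castHom (dvd_refl 2) k (fO η).1

theorem y_kills : (rho k).asAlgebraHom (y k) (fk k) = 0 := by
  funext η
  have h := congrArg (ZMod.castHom (dvd_refl 2) k) (key_identity η)
  simp only [y, map_add, Representation.asAlgebraHom_of, LinearMap.add_apply, Pi.add_apply,
    rho_apply, fk, Pi.zero_apply]
  have e1 : ((ga : grigorchukGroup) : Equiv.Perm (List Bool))⁻¹ = a := a_inv
  have e2 : ((gc : grigorchukGroup) : Equiv.Perm (List Bool))⁻¹ = c := c_inv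
  have e3 : ((ga * gb : grigorchukGroup) : Equiv.Perm (List Bool))⁻¹ = b * a := by
    show (a * b)⁻¹ = b * a
    rw [mul_inv_rev, a_inv, b_inv]
  have e4 : ((gb * ga : grigorchukGroup) : Equiv.Perm (List Bool))⁻¹ = a * b := by
    show (b * a)⁻¹ = a * b
    rw [mul_inv_rev, a_inv, b_inv]
  have e5 : ((ga * gd * ga : grigorchukGroup) : Equiv.Perm (List Bool))⁻¹ = a * d * a := by
    show (a * d * a)⁻¹ = a * d * a
    rw [mul_inv_rev, mul_inv_rev, a_inv, d_inv, mul_assoc]
  rw [e1, e2, e3, e4, e5]
  simp only [map_add, map_zero] at h
  rw [← h]
  ring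

theorem span_y_ne_top : Ideal.span {y k} ≠ ⊤ := by
  intro htop
  have h1 : (1 : MonoidAlgebra k grigorchukGroup) ∈ Ideal.span {y k} := by rw [htop]; trivial
  rw [Ideal.mem_span_singleton'] at h1
  obtain ⟨z, hz⟩ := h1
  have h2 : (rho k).asAlgebraHom 1 (fk k) = 0 := by
    rw [← hz, map_mul, Module.End.mul_apply, y_kills, map_zero]
  rw [map_one, Module.End.one_apply] at h2
  have h3 := congrFun h2 (xi 0)
  simp only [fk, fO_xi_zero, map_one, Pi.zero_apply] at h3
  exact one_ne_zero h3

end

/-- **Theorem.** Over every field `k` of characteristic `2`, the first Grigorchuk group has an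
infinite-dimensional irreducible representation. -/
theorem result (k : Type u) [Field k] [CharP k 2] :
    ∃ (V : Type u) (_ : AddCommGroup V) (_ : Module k V)
      (ρ : Representation k grigorchukGroup V),
      ρ.IsIrreducible ∧ ¬ FiniteDimensional k V := by
  obtain ⟨M, hM, hle⟩ := Ideal.exists_le_maximal _ (span_y_ne_top k)
  let R := MonoidAlgebra k grigorchukGroup
  let Q := R ⧸ M
  have hsimple : IsSimpleModule R Q := isSimpleModule_iff_isCoatom.2 hM.out
  let ρ : Representation k grigorchukGroup Q := Representation.ofModule' Q
  have hρalg : ∀ (r : R) (q : Q), ρ.asAlgebraHom r q = r • q := by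
    intro r q
    have h1 : ρ.asAlgebraHom = Algebra.lsmul k k Q := by
      rw [Representation.asAlgebraHom_def]
      exact Equiv.apply_symm_apply _ _
    rw [h1]; rfl
  have hρ : ∀ (g : grigorchukGroup) (q : Q), ρ g q = (MonoidAlgebra.of k _ g : R) • q := by
    intro g q
    rw [← hρalg, Representation.asAlgebraHom_of]
  have hirr : ρ.IsIrreducible := by
    rw [Representation.irreducible_iff_isSimpleModule_asModule]
    let e : ρ.asModule ≃ₗ[R] Q :=
      { toFun := fun x => x
        invFun := fun x => x
        left_inv := fun _ => rfl
        right_inv := fun _ => rfl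
        map_add' := fun _ _ => rfl
        map_smul' := fun r x => hρalg r x }
    exact IsSimpleModule.congr e
  refine ⟨Q, inferInstance, inferInstance, ρ, hirr, fun hfd => ?_⟩
  have : Nontrivial Q := IsSimpleModule.nontrivial R Q
  -- the group acts unipotently
  have hu : ∀ g : grigorchukGroup, IsNilpotent (ρ g - 1) := by
    intro g
    obtain ⟨n, hn⟩ := exists_pow_eq_one g.1 g.2
    refine ⟨2 ^ n, ?_⟩
    have : CharP (Module.End k Q) 2 := charP_of_injective_algebraMap
      (algebraMap k (Module.End k Q)).injective 2
    have : Fact (Nat.Prime 2) := ⟨Nat.prime_two⟩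
    rw [sub_pow_char_pow_of_commute _ _ (Commute.one_right _), one_pow, ← map_pow]
    have hg : g ^ 2 ^ n = 1 := Subtype.ext hn
    rw [hg, map_one, sub_self]
  obtain ⟨v, hv0, hv⟩ := exists_fixed ρ hu
  -- the fixed vectors form a submodule, hence everything is fixed
  let F : Submodule R Q :=
    { carrier := {q | ∀ g : grigorchukGroup, ρ g q = q}
      zero_mem' := by intro g; exact map_zero _
      add_mem' := by
        intro p q hp hq g
        rw [map_add, hp g, hq g]
      smul_mem' := by
        intro r q hq
        induction r using MonoidAlgebra.induction_on with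
        | of h =>
          intro g
          rw [← hρ, hq h, hq g]
        | add x z hx hz =>
          intro g
          rw [add_smul, map_add, hx g, hz g]
        | smul t x hx =>
          intro g
          rw [smul_assoc, map_smul, hx g] }
  have hFtop : F = ⊤ := by
    refine (eq_bot_or_eq_top F).resolve_left fun h => hv0 ?_
    have : v ∈ F := hv
    rw [h] at this
    simpa using this
  let v₀ : Q := Submodule.Quotient.mk (1 : R)
  have hv₀F : ∀ g : grigorchukGroup, (MonoidAlgebra.of k _ g : R) • v₀ = v₀ := by
    intro g
    have : v₀ ∈ F := by rw [hFtop]; trivial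
    rw [← hρ]; exact this g
  have hyv : (y k : R) • v₀ = 0 := by
    rw [← Submodule.Quotient.mk_smul, smul_eq_mul, mul_one, Submodule.Quotient.mk_eq_zero]
    exact hle (Ideal.subset_span rfl)
  have h2 : v₀ + v₀ = 0 := by
    have : (2 : k) = 0 := CharP.cast_eq_zero k 2
    rw [← two_smul k v₀, this, zero_smul]
  have hyv' : (y k : R) • v₀ = v₀ := by
    simp only [y, add_smul, hv₀F]
    rw [h2, zero_add, h2, zero_add]
  have hv₀ : v₀ = 0 := by rw [← hyv', hyv]
  have h1M : (1 : R) ∈ M := by
    rwa [Submodule.Quotient.mk_eq_zero] at hv₀
  exact hM.ne_top ((Ideal.eq_top_iff_one M).2 h1M)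

end Pool.Agent.Results.MP_64b2bf_al.EveryFieldCharTwo
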